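import Pool.Agent.W503.TQ.Base

/-! The equation tested with the time derivative. -/

open MeasureTheory Set Filter
open scoped InnerProductSpace

namespace Pool.Agent.W503.TQ

open H772R2.NSR (Frame prim_cont)
open H772R2.NSG (mem_cont int_inner ii_of_int St by_parts fin_Ioc)
open Pool.Agent.W795.TQ

theorem proof_est1 : S_est1 := by
  intro H K _ _ _ _ _ _ W m C c ν T F F1 u u1 z z1 Φ Fr Un hν hT hFH S hΦ hFb t0 ht0 t ht
  have hFc : ContinuousOn F (Icc 0 T) := prim_cont hFH.memLp hFH.prim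
  obtain ⟨Z, hSt⟩ := toSt hFc S
  have huc := hSt.uc
  have hzc := hSt.zc
  have hmc := hSt.mc Fr
  have hdw := hSt.deriv_weak Fr hT
  have ht0' : (0 : ℝ) ≤ t0 := ht0.1
  have htt : t0 ≤ t := ht.1
  have htT : t ≤ T := ht.2
  have htI : t ∈ Icc 0 T := ⟨ht0'.trans htt, htT⟩
  have hc0 := Un.c0
  -- integrability
  have i_u1 : Integrable (fun s => ‖u1 s‖ ^ 2) (volume.restrict (Ioc 0 T)) :=
    (memLp_two_iff_integrable_sq_norm S.u1m.aestronglyMeasurable).mp S.u1m
  have i_zz1 : Integrable (fun s => ⟪z s, z1 s⟫_ℝ) (volume.restrict (Ioc 0 T)) :=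
    int_inner (mem_cont hzc) S.z1m
  have i_Fz1 : Integrable (fun s => ⟪F s, z1 s⟫_ℝ) (volume.restrict (Ioc 0 T)) :=
    int_inner (mem_cont hFc) S.z1m
  have i_F1z : Integrable (fun s => ⟪F1 s, z s⟫_ℝ) (volume.restrict (Ioc 0 T)) :=
    int_inner hFH.memLp (mem_cont hzc)
  have i_mz1 : Integrable (fun s => ⟪m (u s), z1 s⟫_ℝ) (volume.restrict (Ioc 0 T)) :=
    int_inner (mem_cont hmc) S.z1m
  have i_nF : Integrable (fun s => ‖F1 s‖ * ‖z s‖) (volume.restrict (Ioc 0 T)) := by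
    have h1 : MemLp (fun s => ‖F1 s‖) 2 (volume.restrict (Ioc 0 T)) := hFH.memLp.norm
    have h2 : MemLp (fun s => ‖z s‖) 2 (volume.restrict (Ioc 0 T)) := (mem_cont hzc).norm
    refine (int_inner h1 h2).congr (Eventually.of_forall fun s => ?_)
    simp [mul_comm]
  have i_q : Integrable (fun s => ‖z s‖ ^ 2 * (Real.sqrt ‖u1 s‖ * Real.sqrt ‖z1 s‖))
      (volume.restrict (Ioc 0 T)) := by
    have h1 : Integrable (fun s => Z ^ 2 * (‖u1 s‖ + ‖z1 s‖)) (volume.restrict (Ioc 0 T)) :=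
      ((S.u1m.integrable (by norm_num)).norm.add (S.z1m.integrable (by norm_num)).norm).const_mul _
    refine h1.mono' ?_ ?_
    · refine AEStronglyMeasurable.mul ?_ (AEStronglyMeasurable.mul ?_ ?_)
      · exact ((mem_cont (p := 2) hzc).aestronglyMeasurable.norm).pow 2
      · exact Real.continuous_sqrt.comp_aestronglyMeasurable S.u1m.aestronglyMeasurable.norm
      · exact Real.continuous_sqrt.comp_aestronglyMeasurable S.z1m.aestronglyMeasurable.norm
    · filter_upwards [ae_restrict_mem measurableSet_Ioc] with s hs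
      have hz := hSt.bz s (Ioc_subset_Icc_self hs)
      rw [Real.norm_of_nonneg (by positivity)]
      have h3 : Real.sqrt ‖u1 s‖ * Real.sqrt ‖z1 s‖ ≤ ‖u1 s‖ + ‖z1 s‖ := by
        have e1 := Real.sq_sqrt (norm_nonneg (u1 s))
        have e2 := Real.sq_sqrt (norm_nonneg (z1 s))
        nlinarith [sq_nonneg (Real.sqrt ‖u1 s‖ - Real.sqrt ‖z1 s‖), Real.sqrt_nonneg ‖u1 s‖,
          Real.sqrt_nonneg ‖z1 s‖]
      gcongr
  -- the identity
  have hsub : (volume.restrict (Ioc t0 t) : Measure ℝ) ≤ volume.restrict (Ioc 0 T) :=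
    Measure.restrict_mono (Ioc_subset_Ioc ht0' htT) le_rfl
  have i_sub : Integrable (fun s => ⟪F s, z1 s⟫_ℝ - ν * ⟪z s, z1 s⟫_ℝ)
      (volume.restrict (Ioc 0 T)) := i_Fz1.sub (i_zz1.const_mul ν)
  have hid : ∫ s in t0..t, ‖u1 s‖ ^ 2 = (∫ s in t0..t, ⟪F s, z1 s⟫_ℝ) -
      ν * (∫ s in t0..t, ⟪z s, z1 s⟫_ℝ) + ∫ s in t0..t, ⟪m (u s), z1 s⟫_ℝ := by
    rw [← intervalIntegral.integral_const_mul, ← intervalIntegral.integral_sub
      (ii_of_int i_Fz1 ht0' htt htT) (ii_of_int (i_zz1.const_mul ν) ht0' htt htT),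
      ← intervalIntegral.integral_add (ii_of_int i_sub ht0' htt htT)
      (ii_of_int i_mz1 ht0' htt htT), intervalIntegral.integral_of_le htt,
      intervalIntegral.integral_of_le htt]
    refine integral_congr_ae ?_
    filter_upwards [ae_mono hsub hdw, ae_mono hsub S.mem1] with s h1 h2
    have h3 := h1 _ h2
    simp only at h3
    rw [real_inner_self_eq_norm_sq] at h3
    rw [h3, inner_add_left, inner_sub_left, real_inner_smul_left]
  -- product rules
  have hp1 := prod_rule S.z1m S.z1m S.pz S.pz ht0' htt htT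
  have hp1' : 2 * ∫ s in t0..t, ⟪z s, z1 s⟫_ℝ = ‖z t‖ ^ 2 - ‖z t0‖ ^ 2 := by
    have e1 : ∫ s in t0..t, ⟪z1 s, z s⟫_ℝ = ∫ s in t0..t, ⟪z s, z1 s⟫_ℝ := by
      congr 1
      funext s
      exact real_inner_comm _ _
    rw [e1, real_inner_self_eq_norm_sq, real_inner_self_eq_norm_sq] at hp1
    linarith
  have hp2 := prod_rule hFH.memLp S.z1m hFH.prim S.pz ht0' htt htT
  -- bounds
  have hb1 : ∫ s in t0..t, ⟪m (u s), z1 s⟫_ℝ ≤
      c * ∫ s in t0..t, ‖z s‖ ^ 2 * (Real.sqrt ‖u1 s‖ * Real.sqrt ‖z1 s‖) := by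
    rw [← intervalIntegral.integral_const_mul, intervalIntegral.integral_of_le htt,
      intervalIntegral.integral_of_le htt]
    refine integral_mono_ae (i_mz1.mono_measure hsub) ((i_q.const_mul c).mono_measure hsub) ?_
    filter_upwards [ae_mono hsub S.mem1, ae_restrict_mem measurableSet_Ioc] with s h1 hs
    have h2 := Un.tri _ (S.mem s ⟨ht0'.trans hs.1.le, hs.2.trans htT⟩) _ h1
    exact (le_abs_self _).trans h2
  have hb2 : -(∫ s in t0..t, ⟪F1 s, z s⟫_ℝ) ≤ ∫ s in t0..t, ‖F1 s‖ * ‖z s‖ := by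
    rw [← intervalIntegral.integral_neg, intervalIntegral.integral_of_le htt,
      intervalIntegral.integral_of_le htt]
    refine integral_mono_ae (i_F1z.neg.mono_measure hsub) (i_nF.mono_measure hsub) ?_
    refine Eventually.of_forall fun s => ?_
    show -⟪F1 s, z s⟫_ℝ ≤ ‖F1 s‖ * ‖z s‖
    have := abs_real_inner_le_norm (F1 s) (z s)
    exact (neg_le_abs _).trans this
  have hb3 : ⟪F t, z t⟫_ℝ ≤ Φ * ‖z t‖ :=
    (real_inner_le_norm _ _).trans (mul_le_mul_of_nonneg_right (hFb t htI) (norm_nonneg _))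
  have hb4 : -⟪F t0, z t0⟫_ℝ ≤ Φ * ‖z t0‖ := by
    have := abs_real_inner_le_norm (F t0) (z t0)
    exact ((neg_le_abs _).trans this).trans
      (mul_le_mul_of_nonneg_right (hFb t0 ht0) (norm_nonneg _))
  have hν1 : ν * (2 * ∫ s in t0..t, ⟪z s, z1 s⟫_ℝ) = ν * (‖z t‖ ^ 2 - ‖z t0‖ ^ 2) := by rw [hp1']
  linarith

end Pool.Agent.W503.TQ
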