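import Pool.Agent.W503.TQ.Base

/-! Leray-Hopf solutions coincide with strong solutions. -/

open MeasureTheory Set Filter
open scoped InnerProductSpace

namespace Pool.Agent.W503.TQ

open H772R2.NSR (Frame prim_cont)
open H772R2.NSG (mem_cont int_inner ii_of_int St by_parts fin_Ioc stab Coef LH gap)
open Pool.Agent.W795.TQ

theorem proof_uni : S_uni := by
  intro H K _ _ _ _ _ _ W m C ν T τ F x0 v u u1 y z z1 Fr hν hτ hτT hF L S hu0
  have hFτ : ContinuousOn F (Icc 0 τ) := hF.mono (Icc_subset_Icc_right hτT)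
  obtain ⟨Z, hSt⟩ := toSt hFτ S
  rw [hu0] at hSt
  have hsub : (volume.restrict (Ioc 0 τ) : Measure ℝ) ≤ volume.restrict (Ioc 0 T) :=
    Measure.restrict_mono (Ioc_subset_Ioc_right hτT) le_rfl
  have hIcc : Icc 0 τ ⊆ Icc 0 T := Icc_subset_Icc_right hτT
  have L' : LH W m τ (fun _ => ν) F x0 v y :=
    ⟨L.init, L.meas.mono_measure hsub, L.mmeas.mono_measure hsub, ae_mono hsub L.mem,
      L.z2.mono_measure hsub, L.dis.mono_measure hsub, fun p hp t ht => L.weak p hp t (hIcc ht),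
      fun t ht => L.energy t (hIcc ht)⟩
  have Co : Coef ν τ (fun _ => ν) F :=
    ⟨mem_cont continuousOn_const, Eventually.of_forall fun _ => le_rfl, mem_cont hFτ⟩
  obtain ⟨h1, h2, -⟩ := stab Fr hν hτ Co L' hSt
  have hgap : gap ν τ Z (fun _ => ν) (fun _ => ν) F F x0 x0 = 0 := by
    unfold gap
    simp
  rw [hgap, mul_zero] at h1 h2
  refine ⟨fun t ht => ?_, ?_⟩
  · have h3 := h1 t ht
    have h4 : ‖v t - u t‖ = 0 := by
      have := norm_nonneg (v t - u t)
      nlinarith
    exact sub_eq_zero.1 (norm_eq_zero.1 h4)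
  · have hm : MemLp (fun s => y s - z s) 2 (volume.restrict (Ioc 0 τ)) :=
      L'.z2.sub (mem_cont (prim_cont S.z1m S.pz))
    have hi : Integrable (fun s => ‖y s - z s‖ ^ 2) (volume.restrict (Ioc 0 τ)) :=
      (memLp_two_iff_integrable_sq_norm hm.aestronglyMeasurable).mp hm
    have h0 : ∫ s in Ioc 0 τ, ‖y s - z s‖ ^ 2 = 0 :=
      le_antisymm h2 (integral_nonneg fun s => by positivity)
    have h5 := (integral_eq_zero_iff_of_nonneg (μ := volume.restrict (Ioc 0 τ))
      (f := fun s => ‖y s - z s‖ ^ 2) (fun s => by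
        show 0 ≤ ‖y s - z s‖ ^ 2
        positivity) hi).1 h0
    filter_upwards [h5] with s hs
    have hs' : ‖y s - z s‖ ^ 2 = 0 := hs
    exact sub_eq_zero.1 (norm_eq_zero.1 (pow_eq_zero_iff (two_ne_zero) |>.1 hs'))

end Pool.Agent.W503.TQ
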