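import Pool.Agent.W795.TQ.DStm

/-! Conversion of strong solutions and product rules for primitives. -/

open MeasureTheory Set Filter
open scoped InnerProductSpace

namespace Pool.Agent.W503.TQ

open H772R2.NSR (Frame prim_cont)
open H772R2.NSG (mem_cont int_inner ii_of_int St by_parts fin_Ioc)
open Pool.Agent.W795.TQ

variable {H K : Type} [NormedAddCommGroup H] [InnerProductSpace ℝ H] [CompleteSpace H]
    [NormedAddCommGroup K] [InnerProductSpace ℝ K] [CompleteSpace K]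
variable {Y : Type*} [NormedAddCommGroup Y] [InnerProductSpace ℝ Y] [CompleteSpace Y]

/-- strong solutions of `DStm` are strong solutions of `H772R2` -/
theorem toSt {W : Submodule ℝ (H × K)} {m : H → K} {ν T : ℝ} {F : ℝ → K} {u u1 : ℝ → H}
    {z z1 : ℝ → K} (hF : ContinuousOn F (Icc 0 T)) (S : Str W m ν T F u u1 z z1) :
    ∃ Z : ℝ, St W m T (fun _ => ν) F (u 0) u z u1 z1 Z := by
  have hz : ContinuousOn z (Icc 0 T) := prim_cont S.z1m S.pz
  obtain ⟨Z, hZ⟩ := (isCompact_Icc.image_of_continuousOn hz).isBounded.exists_norm_le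
  refine ⟨Z, rfl, S.mem, S.u1m, S.z1m, S.pu, S.pz, S.mem1, continuousOn_const, hF, S.weak,
    fun t ht => ?_, fun t ht => hZ _ ⟨t, ht, rfl⟩⟩
  rw [intervalIntegral.integral_const_mul]
  exact S.energy t ht

/-- the product rule for primitives -/
theorem prod_rule {T : ℝ} {f f1 g g1 : ℝ → Y} (hf1 : MemLp f1 2 (volume.restrict (Ioc 0 T)))
    (hg1 : MemLp g1 2 (volume.restrict (Ioc 0 T)))
    (hf : ∀ a b, 0 ≤ a → a ≤ b → b ≤ T → f b - f a = ∫ s in a..b, f1 s)
    (hg : ∀ a b, 0 ≤ a → a ≤ b → b ≤ T → g b - g a = ∫ s in a..b, g1 s)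
    {a b : ℝ} (ha : 0 ≤ a) (hab : a ≤ b) (hb : b ≤ T) :
    (∫ s in a..b, ⟪f1 s, g s⟫_ℝ) + ∫ s in a..b, ⟪f s, g1 s⟫_ℝ = ⟪f b, g b⟫_ℝ - ⟪f a, g a⟫_ℝ := by
  have hfc : ContinuousOn f (Icc 0 T) := prim_cont hf1 hf
  have hgc : ContinuousOn g (Icc 0 T) := prim_cont hg1 hg
  have hfi : Integrable f1 (volume.restrict (Ioc 0 T)) := hf1.integrable (by norm_num)
  have hgi : Integrable g1 (volume.restrict (Ioc 0 T)) := hg1.integrable (by norm_num)
  have i1 : Integrable (fun s => ⟪f1 s, g s⟫_ℝ) (volume.restrict (Ioc 0 T)) :=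
    int_inner hf1 (mem_cont hgc)
  have i2 : Integrable (fun s => ⟪f s, g1 s⟫_ℝ) (volume.restrict (Ioc 0 T)) :=
    int_inner (mem_cont hfc) hg1
  have key : ∀ t ∈ Icc 0 T, (∫ s in (0 : ℝ)..t, ⟪f1 s, g s⟫_ℝ) + ∫ s in (0 : ℝ)..t, ⟪f s, g1 s⟫_ℝ =
      ⟪f t, g t⟫_ℝ - ⟪f 0, g 0⟫_ℝ := by
    intro t ht
    have h1 := by_parts hfi hgi hg hgc ht
    have h2 : ∫ s in (0 : ℝ)..t, ⟪f1 s, g t⟫_ℝ = ⟪f t - f 0, g t⟫_ℝ := by
      rw [hf 0 t le_rfl ht.1 ht.2, intervalIntegral.integral_of_le ht.1,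
        intervalIntegral.integral_of_le ht.1]
      have hi : IntegrableOn f1 (Ioc 0 t) volume :=
        hfi.mono_measure (Measure.restrict_mono (Ioc_subset_Ioc_right ht.2) le_rfl)
      have := integral_inner (𝕜 := ℝ) hi (g t)
      rw [real_inner_comm, ← this]
      exact integral_congr_ae (Eventually.of_forall fun s => real_inner_comm _ _)
    have h3 : ∫ r in (0 : ℝ)..t, ⟪∫ s in (0 : ℝ)..r, f1 s, g1 r⟫_ℝ =
        (∫ r in (0 : ℝ)..t, ⟪f r, g1 r⟫_ℝ) - ⟪f 0, g t - g 0⟫_ℝ := by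
      have e1 : ∫ r in (0 : ℝ)..t, ⟪∫ s in (0 : ℝ)..r, f1 s, g1 r⟫_ℝ =
          ∫ r in (0 : ℝ)..t, (⟪f r, g1 r⟫_ℝ - ⟪f 0, g1 r⟫_ℝ) := by
        apply intervalIntegral.integral_congr
        intro r hr
        rw [uIcc_of_le ht.1] at hr
        simp only
        rw [← hf 0 r le_rfl hr.1 (hr.2.trans ht.2), inner_sub_left]
      have hi : IntegrableOn g1 (Ioc 0 t) volume :=
        hgi.mono_measure (Measure.restrict_mono (Ioc_subset_Ioc_right ht.2) le_rfl)
      rw [e1, intervalIntegral.integral_sub (ii_of_int i2 le_rfl ht.1 ht.2)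
        (ii_of_int (hgi.const_inner _) le_rfl ht.1 ht.2), hg 0 t le_rfl ht.1 ht.2]
      congr 1
      rw [intervalIntegral.integral_of_le ht.1, intervalIntegral.integral_of_le ht.1]
      exact integral_inner (𝕜 := ℝ) hi (f 0)
    rw [h2, h3] at h1
    simp only [inner_sub_left, inner_sub_right] at h1
    linarith
  have k1 := key a ⟨ha, hab.trans hb⟩
  have k2 := key b ⟨ha.trans hab, hb⟩
  have s1 := intervalIntegral.integral_add_adjacent_intervals (ii_of_int i1 le_rfl ha (hab.trans hb))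
    (ii_of_int i1 ha hab hb)
  have s2 := intervalIntegral.integral_add_adjacent_intervals (ii_of_int i2 le_rfl ha (hab.trans hb))
    (ii_of_int i2 ha hab hb)
  linarith

end Pool.Agent.W503.TQ
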